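import Pool.Agent.Helper89.Slab.Defs

/-!
SLAB-S4a (problem MP_66ebcc_gt): the function `A p (A q H)` in closed form (area of a corner of
the square), its symmetry and its continuity.
-/

namespace Slab

open MeasureTheory Set

/-- the explicit function -/
noncomputable def ee (P M s : ℝ) : ℝ :=
  if s ≤ M then 4 * s / (P + M) else if s ≤ P then 2 - 2 * (P - s) ^ 2 / (P ^ 2 - M ^ 2) else 2

namespace AAHaux

/-- antiderivative of the absolute value -/
noncomputable def hh (x : ℝ) : ℝ := x * |x| / 2

theorem hh_neg (x : ℝ) : hh (-x) = -hh x := by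
  unfold hh; rw [abs_neg]; ring

theorem hh_nonneg {x : ℝ} (h : 0 ≤ x) : hh x = x ^ 2 / 2 := by
  unfold hh; rw [abs_of_nonneg h]; ring

theorem hh_nonpos {x : ℝ} (h : x ≤ 0) : hh x = -(x ^ 2 / 2) := by
  unfold hh; rw [abs_of_nonpos h]; ring

theorem hasDerivAt_hh (x : ℝ) : HasDerivAt hh |x| x := by
  rcases lt_trichotomy x 0 with h | h | h
  · have h1 : HasDerivAt (fun y : ℝ => -(y ^ 2 / 2)) |x| x := by
      have h2 := ((hasDerivAt_pow 2 x).div_const 2).fun_neg
      have h3 : |x| = -(((2 : ℕ) : ℝ) * x ^ (2 - 1) / 2) := by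
        rw [abs_of_neg h]; norm_num
      rw [h3]; exact h2
    refine h1.congr_of_eventuallyEq ?_
    filter_upwards [gt_mem_nhds h] with y hy
    exact hh_nonpos (le_of_lt hy)
  · subst h
    rw [abs_zero, hasDerivAt_iff_tendsto_slope_zero]
    have h1 : ∀ t : ℝ, t ≠ 0 → t⁻¹ • (hh (0 + t) - hh 0) = |t| / 2 := by
      intro t ht
      unfold hh
      simp only [zero_add, smul_eq_mul]
      field_simp
      simp
    have h2 : Filter.Tendsto (fun t : ℝ => |t| / 2) (nhdsWithin 0 {0}ᶜ) (nhds 0) := by
      have : Continuous (fun t : ℝ => |t| / 2) := by fun_prop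
      have h3 := this.tendsto 0
      simp only [abs_zero, zero_div] at h3
      exact h3.mono_left nhdsWithin_le_nhds
    refine h2.congr' ?_
    filter_upwards [self_mem_nhdsWithin] with t ht
    exact (h1 t ht).symm
  · have h1 : HasDerivAt (fun y : ℝ => y ^ 2 / 2) |x| x := by
      have h2 := (hasDerivAt_pow 2 x).div_const 2
      have h3 : |x| = (((2 : ℕ) : ℝ) * x ^ (2 - 1) / 2) := by
        rw [abs_of_pos h]; norm_num
      rw [h3]; exact h2
    refine h1.congr_of_eventuallyEq ?_
    filter_upwards [lt_mem_nhds h] with y hy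
    exact hh_nonneg (le_of_lt hy)

theorem continuous_hh : Continuous hh := by
  unfold hh; fun_prop

theorem A_H_pos {q : ℝ} (hq : 0 < q) (s : ℝ) : A q H s = 1 - (|s + q| - |s - q|) / (2 * q) := by
  have h1 : A q H s = volume.real (Ioc (max (-1) (s / q)) 1) := by
    unfold A
    rw [intervalIntegral.integral_of_le (by norm_num)]
    have h2 : ∀ u ∈ Ioc (-1 : ℝ) 1, H (s - q * u) = (Ioi (s / q)).indicator (fun _ => (1 : ℝ)) u := by
      intro u _
      unfold H
      by_cases h : s / q < u
      · have h3 : s < u * q := (div_lt_iff₀ hq).mp h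
        rw [if_pos (by linarith), indicator_of_mem (show u ∈ Ioi (s / q) from h)]
      · have h3 : ¬ s < u * q := fun h4 => h ((div_lt_iff₀ hq).mpr h4)
        rw [if_neg (by intro h4; apply h3; linarith),
          indicator_of_notMem (show u ∉ Ioi (s / q) from h)]
    rw [setIntegral_congr_fun measurableSet_Ioc h2, setIntegral_indicator measurableSet_Ioi]
    rw [setIntegral_const, smul_eq_mul, mul_one]
    congr 1
    ext u
    simp only [mem_inter_iff, mem_Ioc, mem_Ioi, max_lt_iff]
    tauto
  rw [h1, Real.volume_real_Ioc]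
  rcases le_or_gt s (-q) with h | h
  · have h2 : s / q ≤ -1 := by
      rw [div_le_iff₀ hq]; linarith
    rw [max_eq_left h2, max_eq_left (by norm_num), abs_of_nonpos (by linarith),
      abs_of_nonpos (by linarith)]
    field_simp
    ring
  · have h2 : -1 < s / q := by
      rw [lt_div_iff₀ hq]; linarith
    rw [max_eq_right h2.le]
    rcases le_or_gt s q with h3 | h3
    · have h4 : s / q ≤ 1 := by
        rw [div_le_iff₀ hq]; linarith
      rw [max_eq_left (by linarith), abs_of_nonneg (by linarith), abs_of_nonpos (by linarith)]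
      field_simp
      ring
    · have h4 : 1 < s / q := by
        rw [lt_div_iff₀ hq]; linarith
      rw [max_eq_right (by linarith), abs_of_nonneg (by linarith), abs_of_nonneg (by linarith)]
      field_simp
      ring

theorem A_zero (φ : ℝ → ℝ) (s : ℝ) : A 0 φ s = 2 * φ s := by
  unfold A
  simp
  norm_num

theorem A_C {p q : ℝ} (hp : 0 < p) (hq : 0 < q) (s : ℝ) :
    A p (A q H) s = 2 - (hh (s + (p + q)) - hh (s + (p - q)) - hh (s - (p - q)) +
      hh (s - (p + q))) / (2 * p * q) := by
  have h1 : A q H = fun s => 1 - (|s + q| - |s - q|) / (2 * q) := funext (A_H_pos hq)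
  rw [h1]
  unfold A
  have hder : ∀ u ∈ uIcc (-1 : ℝ) 1, HasDerivAt (fun u : ℝ => -(((s - p * u) -
      (hh (s - p * u + q) - hh (s - p * u - q)) / (2 * q)) / p))
      (1 - (|s - p * u + q| - |s - p * u - q|) / (2 * q)) u := by
    intro u _
    have h2 : HasDerivAt (fun u : ℝ => s - p * u) (-p) u := by
      have := ((hasDerivAt_id u).const_mul p).const_sub s
      simpa using this
    have h3 : HasDerivAt (fun u : ℝ => hh (s - p * u + q)) (|s - p * u + q| * (-p)) u :=
      (hasDerivAt_hh _).comp u (h2.add_const q)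
    have h4 : HasDerivAt (fun u : ℝ => hh (s - p * u - q)) (|s - p * u - q| * (-p)) u :=
      (hasDerivAt_hh _).comp u (h2.sub_const q)
    have h5 := ((h2.fun_sub ((h3.fun_sub h4).div_const (2 * q))).div_const p).fun_neg
    have h6 : 1 - (|s - p * u + q| - |s - p * u - q|) / (2 * q) =
        -((-p - (|s - p * u + q| * (-p) - |s - p * u - q| * (-p)) / (2 * q)) / p) := by
      field_simp
      ring
    rw [h6]; exact h5
  rw [intervalIntegral.integral_eq_sub_of_hasDerivAt hder]
  · have e1 : s - p * 1 + q = s - (p - q) := by ring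
    have e2 : s - p * 1 - q = s - (p + q) := by ring
    have e3 : s - p * (-1) + q = s + (p + q) := by ring
    have e4 : s - p * (-1) - q = s + (p - q) := by ring
    rw [e1, e2, e3, e4]
    field_simp
    ring
  · apply Continuous.intervalIntegrable
    fun_prop

theorem A_zero_H {p : ℝ} (hp : 0 < p) (s : ℝ) :
    A p (A 0 H) s = 2 * (1 - (|s + p| - |s - p|) / (2 * p)) := by
  rw [← A_H_pos hp]
  have : A 0 H = fun s => 2 * H s := funext (A_zero H)
  rw [this]
  unfold A
  rw [intervalIntegral.integral_const_mul]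

end AAHaux

open AAHaux

theorem AAH_eq {p q : ℝ} (hp : 0 < p) (hq : 0 ≤ q) (hqp : q ≤ p) {s : ℝ} (hs : 0 ≤ s) :
    A p (A q H) s = 2 - ee (p + q) (p - q) s := by
  rcases hq.eq_or_lt with h0 | h0
  · subst h0
    rw [A_zero_H hp]
    unfold ee
    simp only [add_zero, sub_zero]
    split_ifs with h1
    · rw [abs_of_nonneg (by linarith), abs_of_nonpos (by linarith)]
      field_simp
      ring
    · rw [abs_of_nonneg (by linarith), abs_of_nonneg (by linarith)]
      field_simp
      ring
  · rw [A_C hp h0]
    unfold ee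
    rw [hh_nonneg (x := s + (p + q)) (by linarith), hh_nonneg (x := s + (p - q)) (by linarith)]
    have h4 : (p + q) ^ 2 - (p - q) ^ 2 = 4 * p * q := by ring
    have h5 : p + q + (p - q) = 2 * p := by ring
    rw [h4, h5]
    split_ifs with h1 h2
    · rw [hh_nonpos (x := s - (p - q)) (by linarith), hh_nonpos (x := s - (p + q)) (by linarith)]
      field_simp
      ring
    · rw [hh_nonneg (x := s - (p - q)) (by linarith), hh_nonpos (x := s - (p + q)) (by linarith)]
      field_simp
      ring
    · rw [hh_nonneg (x := s - (p - q)) (by linarith), hh_nonneg (x := s - (p + q)) (by linarith)]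
      field_simp
      ring

theorem AAH_neg {p q : ℝ} (hp : 0 < p) (hq : 0 ≤ q) (s : ℝ) :
    A p (A q H) (-s) = 4 - A p (A q H) s := by
  rcases hq.eq_or_lt with h0 | h0
  · subst h0
    rw [A_zero_H hp, A_zero_H hp]
    have e1 : -s + p = -(s - p) := by ring
    have e2 : -s - p = -(s + p) := by ring
    rw [e1, e2, abs_neg, abs_neg]
    field_simp
    ring
  · rw [A_C hp h0, A_C hp h0]
    have e1 : -s + (p + q) = -(s - (p + q)) := by ring
    have e2 : -s + (p - q) = -(s - (p - q)) := by ring
    have e3 : -s - (p - q) = -(s + (p - q)) := by ring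
    have e4 : -s - (p + q) = -(s + (p + q)) := by ring
    rw [e1, e2, e3, e4, hh_neg, hh_neg, hh_neg, hh_neg]
    field_simp
    ring

theorem AAH_continuous {p q : ℝ} (hp : 0 < p) (hq : 0 ≤ q) : Continuous (A p (A q H)) := by
  rcases hq.eq_or_lt with h0 | h0
  · subst h0
    have : A p (A 0 H) = fun s => 2 * (1 - (|s + p| - |s - p|) / (2 * p)) :=
      funext (A_zero_H hp)
    rw [this]
    fun_prop
  · have : A p (A q H) = fun s => 2 - (hh (s + (p + q)) - hh (s + (p - q)) - hh (s - (p - q)) +
      hh (s - (p + q))) / (2 * p * q) := funext (A_C hp h0)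
    rw [this]
    have hc := continuous_hh
    fun_prop

end Slab
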